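import Pool.Agent.H47S.X1da4e9LowerDual

namespace Pool.Agent.Results.MP_1da4e9_nt.QOne

open Set
open Pool.Agent.Results.MP_1da4e9_nt.LowerDual

theorem result :
    (∀ H ∈ ({univ, Ici 0, Ici 1} : Set (Set ℤ)), ∃ μ, IsUD H μ ∧
      ∃ X ⊆ H, ∃ k : ℕ, 0 < k ∧ low H μ (aff k 0 X) ≠ low H μ X / k) :=
  parts.1

end Pool.Agent.Results.MP_1da4e9_nt.QOne
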