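import Pool.Agent.H47S.X1da4e9LowerDual

namespace Pool.Agent.Results.MP_1da4e9_nt.QTwo

open Set
open Pool.Agent.Results.MP_1da4e9_nt.LowerDual

theorem result :
    (∀ H ∈ ({Ici 0, Ici 1} : Set (Set ℤ)), ∃ μ, IsUQD H μ ∧
      ∃ X ⊆ H, ∃ h : ℕ, low H μ (aff 1 h X) ≠ low H μ X) ∧
    (∀ μ, IsUQD univ μ → ∀ X, ∀ h : ℕ, low univ μ (aff 1 h X) = low univ μ X) :=
  ⟨parts.2.1, parts.2.2⟩

end Pool.Agent.Results.MP_1da4e9_nt.QTwo
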